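import Pool.Agent.Work.MP_48319b_gt.Final
import Pool.Agent.Work.MP_48319b_gt.StatementDefs

/-!
# MP_48319b_gt : the answer is NO

There is a transverse immersion of the 2-sphere in 3-space which is the projection of a 2-knot,
while no 2-knot projecting to it is trivial, not even topologically.
-/

namespace Pool.Agent.Results.MP_48319b_gt.NoTrivialLift

open Pool.Agent.Work.MP_48319b_gt.Statement

theorem knot_iff (f : S2 → E4) : IsTwoKnot f ↔ Pool.Agent.Work.MP_48319b_gt.IsTwoKnot f :=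
  ⟨fun h => ⟨h.smooth, h.injective, h.immersion⟩, fun h => ⟨h.smooth, h.injective, h.immersion⟩⟩

theorem mem_tp (P : S2 → E3) (p : S2) (x : E3) :
    x ∈ Pool.Agent.Work.MP_48319b_gt.tangentPlane P p ↔ x ∈ tangentPlane P p := Iff.rfl

theorem trans_of (P : S2 → E3) (h : Pool.Agent.Work.MP_48319b_gt.IsTransverseImmersion P) :
    IsTransverseImmersion P where
  smooth := h.smooth
  immersion := h.immersion
  double := by
    intro p q h1 h2 x
    have h3 : x ∈ Pool.Agent.Work.MP_48319b_gt.tangentPlane P p ⊔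
        Pool.Agent.Work.MP_48319b_gt.tangentPlane P q := by
      rw [h.double p q h1 h2]; trivial
    rw [Submodule.mem_sup] at h3
    obtain ⟨a, ha, b, hb, hab⟩ := h3
    exact ⟨a, (mem_tp P p a).1 ha, b, (mem_tp P q b).1 hb, hab⟩
  triple := by
    intro p q r h1 h2 h3 h4 h5 x ha hb hc
    have h7 : x ∈ Pool.Agent.Work.MP_48319b_gt.tangentPlane P p ⊓
        Pool.Agent.Work.MP_48319b_gt.tangentPlane P q ⊓
        Pool.Agent.Work.MP_48319b_gt.tangentPlane P r :=
      ⟨⟨(mem_tp P p x).2 ha, (mem_tp P q x).2 hb⟩, (mem_tp P r x).2 hc⟩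
    rw [h.triple p q r h1 h2 h3 h4 h5] at h7
    exact (Submodule.mem_bot ℝ).1 h7
  quadruple := h.quadruple

theorem result :
    ∃ P : S2 → E3, IsTransverseImmersion P ∧ (∃ f, IsTwoKnot f ∧ IsProjection P f) ∧
      ∀ f, IsTwoKnot f → IsProjection P f → ¬ IsTopTrivial f ∧ ¬ IsTrivial f := by
  obtain ⟨P, h1, ⟨f, h2, h3⟩, h4⟩ := Pool.Agent.Work.MP_48319b_gt.mainStatement
  exact ⟨P, trans_of P h1, ⟨f, (knot_iff f).2 h2, h3⟩,
    fun f hf hP => h4 f ((knot_iff f).1 hf) hP⟩

end Pool.Agent.Results.MP_48319b_gt.NoTrivialLift
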